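import Mathlib
import Pool.Agent.Q254.Theta.Stm

/-!
# Job INT: the Taylor coefficients `d n` are integers (helper210)
-/

set_option autoImplicit false

namespace Pool.Agent.Q210.Theta

open Pool.Agent.Q254.Theta

/-- the integers in `ℚ` -/
def ZQ : Subring ℚ := (Int.castRingHom ℚ).range

theorem mem_ZQ {q : ℚ} : q ∈ ZQ ↔ ∃ z : ℤ, q = (z : ℚ) := by
  constructor
  · rintro ⟨z, hz⟩
    exact ⟨z, hz.symm⟩
  · rintro ⟨z, rfl⟩
    exact ⟨z, rfl⟩

theorem nat_mem (n : ℕ) : (n : ℚ) ∈ ZQ := natCast_mem ZQ n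

theorem four_mem : (4 : ℚ) ∈ ZQ := by
  have := nat_mem 4
  exact_mod_cast this

theorem two_mem : (2 : ℚ) ∈ ZQ := by
  have := nat_mem 2
  exact_mod_cast this

theorem three_mem : (3 : ℚ) ∈ ZQ := by
  have := nat_mem 3
  exact_mod_cast this

theorem Pi1_mem (N : ℕ) : Pi1 N ∈ ZQ := by
  unfold Pi1
  refine prod_mem fun j _ => pow_mem (sub_mem (mul_mem four_mem (add_mem (nat_mem j) ?_)) ?_) _
  · exact one_mem _
  · exact one_mem _

theorem Pi3_mem (N : ℕ) : Pi3 N ∈ ZQ := by
  unfold Pi3
  refine prod_mem fun j _ => pow_mem (sub_mem (mul_mem four_mem (add_mem (nat_mem j) ?_))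
    three_mem) _
  exact one_mem _

theorem u_mem (n : ℕ) : u n ∈ ZQ := by
  induction n using Nat.strong_induction_on with
  | _ n ih =>
    rw [u]
    refine sub_mem (Pi1_mem n) (sum_mem fun m _ => mul_mem (mul_mem (nat_mem _) (Pi3_mem _)) ?_)
    exact ih m.1 m.2

theorem even_sum (n : ℕ) (w : ℕ → ℤ) :
    (2 : ℤ) ∣ ∑ m : Fin n, ((2 * (n + 1)).choose (2 * (m.1 + 1)) : ℤ) * w (m.1 + 1) *
      w (n + 1 - (m.1 + 1)) := by
  have h : ((∑ m : Fin n, ((2 * (n + 1)).choose (2 * (m.1 + 1)) : ℤ) * w (m.1 + 1) *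
      w (n + 1 - (m.1 + 1)) : ℤ) : ZMod 2) = 0 := by
    rw [Int.cast_sum]
    refine Finset.sum_involution (fun m _ => m.rev) ?_ ?_ (fun _ _ => Finset.mem_univ _)
      (fun m _ => Fin.rev_rev m)
    · intro m _
      have h1 : (m.rev : ℕ) = n - (m.1 + 1) := Fin.val_rev m
      have h2 : (m.rev : ℕ) + 1 = n + 1 - (m.1 + 1) := by
        rw [h1]
        have := m.2
        omega
      have h3 : n + 1 - ((m.rev : ℕ) + 1) = m.1 + 1 := by
        rw [h2]
        have := m.2
        omega
      have h4 : (2 * (n + 1)).choose (2 * ((m.rev : ℕ) + 1)) =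
          (2 * (n + 1)).choose (2 * (m.1 + 1)) := by
        rw [h2]
        have h5 : 2 * (n + 1 - (m.1 + 1)) = 2 * (n + 1) - 2 * (m.1 + 1) := by omega
        rw [h5]
        exact Nat.choose_symm (by have := m.2; omega)
      rw [h3, h4, h2]
      have h6 : (((2 * (n + 1)).choose (2 * (m.1 + 1)) : ℤ) * w (n + 1 - (m.1 + 1)) *
          w (m.1 + 1)) = ((2 * (n + 1)).choose (2 * (m.1 + 1)) : ℤ) * w (m.1 + 1) *
            w (n + 1 - (m.1 + 1)) := by ring
      rw [h6]
      exact CharTwo.add_self_eq_zero _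
    · intro m _ hne heq
      apply hne
      have h1 : (m.rev : ℕ) = n - (m.1 + 1) := Fin.val_rev m
      rw [heq] at h1
      have h2 : 2 * (m.1 + 1) = n + 1 := by
        have := m.2
        omega
      have h3 : 2 ∣ (2 * (n + 1)).choose (2 * (m.1 + 1)) := by
        rw [h2]
        exact Nat.two_dvd_centralBinom_succ n
      have h4 : (((2 * (n + 1)).choose (2 * (m.1 + 1)) : ℤ) : ZMod 2) = 0 := by
        rw [Int.cast_natCast]
        exact (ZMod.natCast_eq_zero_iff _ _).2 h3
      rw [Int.cast_mul, Int.cast_mul, h4, zero_mul, zero_mul]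
  exact (ZMod.intCast_zmod_eq_zero_iff_dvd _ 2).1 h

theorem v_mem (n : ℕ) : v n ∈ ZQ := by
  induction n using Nat.strong_induction_on with
  | _ n ih =>
    rcases n with _ | n
    · rw [v]
      exact one_mem _
    · rw [v]
      refine sub_mem (mul_mem (pow_mem two_mem _) (Pi3_mem _)) ?_
      have hw : ∀ m, ∃ w : ℤ, m < n + 1 → v m = (w : ℚ) := by
        intro m
        by_cases h : m < n + 1
        · obtain ⟨w, hw⟩ := mem_ZQ.1 (ih m h)
          exact ⟨w, fun _ => hw⟩
        · exact ⟨0, fun h' => absurd h' h⟩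
      choose w hw using hw
      obtain ⟨e, he⟩ := even_sum n w
      rw [mem_ZQ]
      refine ⟨e, ?_⟩
      have h1 : ∑ m : Fin n, ((2 * (n + 1)).choose (2 * (m.1 + 1)) : ℚ) * v (m.1 + 1) *
          v (n + 1 - (m.1 + 1)) = ((2 * e : ℤ) : ℚ) := by
        rw [← he]
        push_cast
        refine Finset.sum_congr rfl fun m _ => ?_
        rw [hw (m.1 + 1) (by have := m.2; omega), hw (n - m.1) (by omega)]
      rw [h1]
      push_cast
      ring

theorem coeff_U (k : ℕ) : (k.factorial : ℚ) * PowerSeries.coeff k U ∈ ZQ := by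
  rw [U, PowerSeries.coeff_mk]
  split_ifs with h
  · rw [mul_div_cancel₀]
    · exact u_mem _
    · exact_mod_cast k.factorial_ne_zero
  · rw [mul_zero]
    exact zero_mem _

theorem coeff_zero_U : PowerSeries.coeff 0 U = 0 := by
  rw [U, PowerSeries.coeff_mk]
  simp

theorem pow_mem_ZQ (j n : ℕ) :
    (n.factorial : ℚ) / (j.factorial : ℚ) * PowerSeries.coeff n (U ^ j) ∈ ZQ := by
  induction j generalizing n with
  | zero =>
    rw [pow_zero, PowerSeries.coeff_one]
    split_ifs with h
    · rw [h]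
      simp [one_mem]
    · rw [mul_zero]
      exact zero_mem _
  | succ j ih =>
    rcases n with _ | n
    · have h1 : PowerSeries.coeff 0 (U ^ (j + 1)) = 0 := by
        have h2 := coeff_zero_U
        rw [PowerSeries.coeff_zero_eq_constantCoeff_apply] at h2 ⊢
        rw [map_pow, h2, zero_pow (Nat.succ_ne_zero j)]
      rw [h1, mul_zero]
      exact zero_mem _
    · have h1 : PowerSeries.coeff n (PowerSeries.derivative ℚ (U ^ (j + 1))) =
          PowerSeries.coeff (n + 1) (U ^ (j + 1)) * (n + 1) :=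
        PowerSeries.coeff_derivative _ _
      have h2 : PowerSeries.derivative ℚ (U ^ (j + 1)) =
          ((j + 1 : ℕ) : PowerSeries ℚ) * (U ^ j * PowerSeries.derivative ℚ U) := by
        rw [Derivation.leibniz_pow]
        simp [nsmul_eq_mul, smul_eq_mul]
      have h3 : PowerSeries.coeff n (((j + 1 : ℕ) : PowerSeries ℚ) *
          (U ^ j * PowerSeries.derivative ℚ U)) = ((j : ℚ) + 1) *
            PowerSeries.coeff n (U ^ j * PowerSeries.derivative ℚ U) := by
        rw [← nsmul_eq_mul, map_nsmul, nsmul_eq_mul]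
        push_cast
        ring
      rw [h2, h3] at h1
      have hj : ((j : ℚ) + 1) ≠ 0 := by positivity
      have hjf : (j.factorial : ℚ) ≠ 0 := by exact_mod_cast j.factorial_ne_zero
      have h4 : ((n + 1).factorial : ℚ) / ((j + 1).factorial : ℚ) *
          PowerSeries.coeff (n + 1) (U ^ (j + 1)) = (n.factorial : ℚ) / (j.factorial : ℚ) *
            PowerSeries.coeff n (U ^ j * PowerSeries.derivative ℚ U) := by
        rw [Nat.factorial_succ, Nat.factorial_succ]
        push_cast
        field_simp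
        linear_combination -h1
      rw [h4, PowerSeries.coeff_mul, Finset.mul_sum]
      refine sum_mem fun ab hab => ?_
      rw [Finset.HasAntidiagonal.mem_antidiagonal] at hab
      have h5 : (n.factorial : ℚ) = (n.choose ab.2 : ℚ) * (ab.1.factorial : ℚ) *
          (ab.2.factorial : ℚ) := by
        have h6 := Nat.add_choose_mul_factorial_mul_factorial ab.1 ab.2
        rw [hab] at h6
        exact_mod_cast h6.symm
      have h6 : (n.factorial : ℚ) / (j.factorial : ℚ) * (PowerSeries.coeff ab.1 (U ^ j) *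
          PowerSeries.coeff ab.2 (PowerSeries.derivative ℚ U)) =
          (n.choose ab.2 : ℚ) * ((ab.1.factorial : ℚ) / (j.factorial : ℚ) *
            PowerSeries.coeff ab.1 (U ^ j)) * (((ab.2 + 1).factorial : ℚ) *
              PowerSeries.coeff (ab.2 + 1) U) := by
        have h7 : PowerSeries.coeff ab.2 (PowerSeries.derivative ℚ U) =
            PowerSeries.coeff (ab.2 + 1) U * (ab.2 + 1) := PowerSeries.coeff_derivative _ _
        rw [h7, h5, Nat.factorial_succ]
        push_cast
        ring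
      rw [h6]
      exact mul_mem (mul_mem (nat_mem _) (ih _)) (coeff_U _)

theorem r_mem (n k : ℕ) : r n k ∈ ZQ := by
  have h := pow_mem_ZQ (2 * k) (2 * n)
  have h1 : r n k = 2 ^ (n - k) * (((2 * n).factorial : ℚ) / ((2 * k).factorial : ℚ) *
      PowerSeries.coeff (2 * n) (U ^ (2 * k))) := by
    rw [r]
    ring
  rw [h1]
  exact mul_mem (pow_mem two_mem _) h

theorem d_mem (n : ℕ) : d n ∈ ZQ := by
  induction n using Nat.strong_induction_on with
  | _ n ih =>
    rw [d]
    exact sub_mem (v_mem n) (sum_mem fun k _ => mul_mem (r_mem _ _) (ih k.1 k.2))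

theorem int : S_int := fun n => mem_ZQ.1 (d_mem n)

end Pool.Agent.Q210.Theta
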